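import Pool.Agent.H7.Trop2

set_option autoImplicit false

namespace Pool.Agent.Results.MP_e1f0eb_co.Eighth

/-- The tropical line with center `c`: the union of the three closed rays from `c` in the
directions `(-1,0)`, `(0,-1)` and `(1,1)`. -/
def tline (c : ℝ × ℝ) : Set (ℝ × ℝ) :=
  {p | ∃ t : ℝ, 0 ≤ t ∧ (p = (c.1 - t, c.2) ∨ p = (c.1, c.2 - t) ∨ p = (c.1 + t, c.2 + t))}

/-- The number (possibly infinite) of ordinary tropical lines determined by `P`. -/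
noncomputable def N (P : Finset (ℝ × ℝ)) : ℕ∞ :=
  {l : Set (ℝ × ℝ) | (∃ c, l = tline c) ∧ (l ∩ (P : Set (ℝ × ℝ))).ncard = 2}.encard

/-- The minimum of `N P` over all sets `P` of `n` points. -/
noncomputable def m (n : ℕ) : ℕ∞ := ⨅ (P : Finset (ℝ × ℝ)) (_ : P.card = n), N P

open Pool.Agent.H7.Trop Finset

theorem mem_tline {c p : ℝ × ℝ} : p ∈ tline c ↔ (p.2 = c.2 ∧ p.1 ≤ c.1) ∨
    (p.1 = c.1 ∧ p.2 ≤ c.2) ∨ (p.1 - p.2 = c.1 - c.2 ∧ c.1 ≤ p.1) := by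
  obtain ⟨x, y⟩ := p
  simp only [tline, Set.mem_ofPred_eq, Prod.mk.injEq]
  constructor
  · rintro ⟨t, ht, ⟨rfl, rfl⟩ | ⟨rfl, rfl⟩ | ⟨rfl, rfl⟩⟩
    · exact Or.inl ⟨rfl, by linarith⟩
    · exact Or.inr (Or.inl ⟨rfl, by linarith⟩)
    · exact Or.inr (Or.inr ⟨by ring, by linarith⟩)
  · rintro (⟨h1, h2⟩ | ⟨h1, h2⟩ | ⟨h1, h2⟩)
    · exact ⟨c.1 - x, by linarith, Or.inl ⟨by ring, h1⟩⟩
    · exact ⟨c.2 - y, by linarith, Or.inr (Or.inl ⟨h1, by ring⟩)⟩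
    · exact ⟨x - c.1, by linarith, Or.inr (Or.inr ⟨by ring, by linarith⟩)⟩

theorem bound {h n : ℕ} (C : Cf h) (hn : n ≤ 2 * h + 1) :
    m n ≤ (((O C).card + (2 * h + 1 - n) * (3 * (2 * h + 1)) : ℕ) : ℕ∞) := by
  classical
  obtain ⟨f, hf⟩ : ∃ f : ℤ → ℝ × ℝ, f = fun x : ℤ => ((x : ℝ), (C.fy x : ℝ)) := ⟨_, rfl⟩
  have fi : Function.Injective f := fun x y e => by
    rw [hf] at e
    have : (x : ℝ) = y := (Prod.ext_iff.1 e).1
    exact_mod_cast this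
  have hP : ((Ico (0 : ℤ) n).image f).card = n := by
    rw [card_image_of_injective _ fi, Int.card_Ico]; omega
  refine (iInf₂_le ((Ico (0 : ℤ) n).image f) hP).trans ?_
  have sub : {l : Set (ℝ × ℝ) | (∃ c, l = tline c) ∧
      (l ∩ (((Ico (0 : ℤ) n).image f : Finset (ℝ × ℝ)) : Set (ℝ × ℝ))).ncard = 2} ⊆
      (((O C ∪ bad C n).image fun p : ℤ × ℤ => tline ((p.1 : ℝ), (p.2 : ℝ)) : Finset _) : Set _) := by
    rintro l ⟨⟨⟨a, b⟩, rfl⟩, hl⟩
    obtain ⟨p, q, hpq, e⟩ := Set.ncard_eq_two.1 hl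
    have mp : ∀ r, r ∈ tline (a, b) ∩ (((Ico (0 : ℤ) n).image f : Finset (ℝ × ℝ)) : Set (ℝ × ℝ)) ↔
        r = p ∨ r = q := fun r => by rw [e]; simp
    obtain ⟨p1, p2⟩ := (mp p).2 (Or.inl rfl)
    obtain ⟨q1, q2⟩ := (mp q).2 (Or.inr rfl)
    simp only [coe_image, Set.mem_image, mem_coe, mem_Ico] at p2 q2
    obtain ⟨x, hx, rfl⟩ := p2
    obtain ⟨x', hx', rfl⟩ := q2
    have hne : x ≠ x' := fun e => hpq (e ▸ rfl)
    have y1 := C.hy x hx.1 (by omega)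
    have y2 := C.hy x' hx'.1 (by omega)
    obtain ⟨A, B, rfl, rfl⟩ : ∃ A B : ℤ, a = A ∧ b = B := by
      rw [mem_tline, hf] at p1 q1
      dsimp only at p1 q1
      rcases p1 with ⟨p1, -⟩ | ⟨p1, -⟩ | ⟨p1, -⟩ <;> rcases q1 with ⟨q1, -⟩ | ⟨q1, -⟩ | ⟨q1, -⟩
      · have : C.fy x = C.fy x' := by exact_mod_cast p1.trans q1.symm
        exact absurd (by rw [← y1.2.2.2.2.1, this, y2.2.2.2.2.1]) hne
      · exact ⟨_, _, q1.symm, p1.symm⟩
      · exact ⟨x' - C.fy x' + C.fy x, _, by push_cast; linarith, p1.symm⟩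
      · exact ⟨_, _, p1.symm, q1.symm⟩
      · exact absurd (by exact_mod_cast p1.trans q1.symm) hne
      · exact ⟨_, x - (x' - C.fy x'), p1.symm, by push_cast; linarith⟩
      · exact ⟨x - C.fy x + C.fy x', _, by push_cast; linarith, q1.symm⟩
      · exact ⟨_, x' - (x - C.fy x), q1.symm, by push_cast; linarith⟩
      · have : x - C.fy x = x' - C.fy x' := by exact_mod_cast p1.trans q1.symm
        exact absurd (by rw [← y1.2.2.2.2.2, this, y2.2.2.2.2.2]) hne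
    simp only [coe_image, Set.mem_image, mem_coe]
    refine ⟨(A, B), int_two C hn hne fun t => ?_, rfl⟩
    rw [← fi.eq_iff, ← fi.eq_iff (a := t), ← mp, Set.mem_inter_iff, mem_coe, fi.mem_finset_image,
      mem_Ico, mem_tline, hf]
    dsimp only [On]
    norm_cast
    tauto
  refine (Set.encard_le_encard sub).trans ?_
  rw [Set.encard_coe_eq_coe_finsetCard, Nat.cast_le]
  exact card_image_le.trans ((card_union_le _ _).trans (Nat.add_le_add_left (bad_card C n) _))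

theorem result (n : ℕ) : 8 * m n ≤ ((n ^ 2 + 640 * n * Nat.sqrt n : ℕ) : ℕ∞) := by
  rcases Nat.eq_zero_or_pos n with rfl | hn
  · have : m 0 ≤ 0 := by
      refine (iInf₂_le ∅ card_empty).trans ?_
      simp [N]
    simp [le_antisymm this zero_le]
  obtain ⟨h, C, h1, h2⟩ := choice n hn
  refine (mul_le_mul_right (bound C h1) 8).trans ?_
  exact_mod_cast h2

end Pool.Agent.Results.MP_e1f0eb_co.Eighth
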